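import Pool.Agent.Helper3_PPZ.Stmts

/-!
# CON, part A: a power of `φ` is a quotient of coprime polynomials in `x, z`
-/

set_option autoImplicit false

universe u

namespace Pool.Agent.PPZ.H33

open MvPolynomial PGH PPX PPZ

theorem root_of_unity_mem {k L : Type u} [Field k] [IsAlgClosed k] [Field L] (κ : k →+* L) {d : ℕ}
    (hd : 0 < d) {ζ : L} (hζ : ζ ^ d = 1) : ∃ c : k, κ c = ζ := by
  set p : Polynomial k := Polynomial.X ^ d - 1 with hp
  have hmon : p.Monic := by
    rw [hp]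
    exact Polynomial.monic_X_pow_sub_C 1 hd.ne'
  have hsp := IsAlgClosed.splits p
  have h1 : p = (p.roots.map fun r => Polynomial.X - Polynomial.C r).prod := by
    have := hsp.eq_prod_roots
    rw [hmon.leadingCoeff, Polynomial.C_1, one_mul] at this
    exact this
  have h2 : p.eval₂ κ ζ = 0 := by
    rw [hp, Polynomial.eval₂_sub, Polynomial.eval₂_pow, Polynomial.eval₂_X, Polynomial.eval₂_one,
      hζ, sub_self]
  rw [h1, Polynomial.eval₂_multiset_prod, Multiset.map_map, Multiset.prod_eq_zero_iff] at h2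
  rw [Multiset.mem_map] at h2
  obtain ⟨r, _, hr⟩ := h2
  simp only [Function.comp_apply, Polynomial.eval₂_sub, Polynomial.eval₂_X,
    Polynomial.eval₂_C] at hr
  exact ⟨r, (sub_eq_zero.1 hr).symm⟩

/-- Part A. -/
theorem conA (kum : KumStmt.{u}) {k : Type u} [Field k] [IsAlgClosed k] [CharZero k]
    (v : Ideal (P4 k)) (hv : v.IsPrime) (hpl : ∀ F : MvPolynomial (Fin 2) k, inc F ∈ v → F = 0)
    (hth : (X 2 : P4 k) ∉ v) (f g U V : MvPolynomial (Fin 2) k) (hf : f ≠ 0) (hg : g ≠ 0)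
    (hU : U ≠ 0) (d : ℕ) (hd : 0 < d)
    (h1 : (X 2 : P4 k) ^ d * inc g ^ (2 * d) * inc U - inc f ^ (2 * d) * inc V ∈ v)
    (G : Polynomial (MvPolynomial (Fin 2) k)) (hG : G ≠ 0) (hG32 : G.natDegree ≤ 32)
    (h2 : G.eval₂ (inc : MvPolynomial (Fin 2) k →ₐ[k] P4 k).toRingHom (X 2) ∈ v) :
    ∃ (d' : ℕ) (A B : MvPolynomial (Fin 2) k), 0 < d' ∧ d' ≤ 32 ∧
      inc B * X 2 ^ d' * inc g ^ (2 * d') - inc A * inc f ^ (2 * d') ∈ v ∧
      ∀ p : Fin 2 → k, eval p U ≠ 0 → eval p B ≠ 0 := by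
  have := hv
  set K := FractionRing (P4 k ⧸ v) with hK
  let π : P4 k →+* K := (algebraMap (P4 k ⧸ v) K).comp (Ideal.Quotient.mk v)
  have hπ : ∀ Q, π Q = 0 ↔ Q ∈ v := by
    intro Q
    have e : π Q = algebraMap (P4 k ⧸ v) K (Ideal.Quotient.mk v Q) := rfl
    rw [e, IsFractionRing.to_map_eq_zero_iff (K := K), Ideal.Quotient.eq_zero_iff_mem]
  let π2 : MvPolynomial (Fin 2) k →+* K :=
    π.comp (inc : MvPolynomial (Fin 2) k →ₐ[k] P4 k).toRingHom
  have hπ2 : ∀ F, π2 F = π (inc F) := fun _ => rfl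
  have hinj : Function.Injective π2 := by
    rw [injective_iff_map_eq_zero]
    intro F hF
    exact hpl F ((hπ _).1 hF)
  let F := FractionRing (MvPolynomial (Fin 2) k)
  let j : F →+* K := IsFractionRing.lift (A := MvPolynomial (Fin 2) k) (g := π2) hinj
  have hj : ∀ A : MvPolynomial (Fin 2) k, j (algebraMap _ F A) = π2 A := fun A =>
    IsFractionRing.lift_algebraMap hinj A
  let : Algebra F K := j.toAlgebra
  have hjm : ∀ c : F, algebraMap F K c = j c := fun _ => rfl
  have : CharZero F := charZero_of_injective_algebraMap (algebraMap k F).injective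
  have hinjF : Function.Injective (algebraMap (MvPolynomial (Fin 2) k) F) :=
    IsFractionRing.injective _ _
  have hf' : π2 f ≠ 0 := fun h => hf (hinj (by rw [h, map_zero]))
  have hg' : π2 g ≠ 0 := fun h => hg (hinj (by rw [h, map_zero]))
  have hU' : π2 U ≠ 0 := fun h => hU (hinj (by rw [h, map_zero]))
  have ht' : π (X 2) ≠ 0 := fun h => hth ((hπ _).1 h)
  set w : F := algebraMap _ F g ^ 2 / algebraMap _ F f ^ 2 with hw
  have hw0 : w ≠ 0 := by
    rw [hw]
    apply div_ne_zero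
    · exact pow_ne_zero _ (fun h => hg (hinjF (by rw [h, map_zero])))
    · exact pow_ne_zero _ (fun h => hf (hinjF (by rw [h, map_zero])))
  have hjw : j w = π2 g ^ 2 / π2 f ^ 2 := by
    rw [hw, map_div₀, map_pow, map_pow, hj, hj]
  set y : K := π (X 2) * j w with hy
  have hy0 : y ≠ 0 := mul_ne_zero ht' (by rw [hjw]; exact div_ne_zero (pow_ne_zero _ hg') (pow_ne_zero _ hf'))
  have hyd : y ^ d * π2 U = π2 V := by
    have h3 := (hπ _).2 h1
    rw [map_sub, map_mul, map_mul, map_mul, map_pow, map_pow, map_pow, ← hπ2, ← hπ2, ← hπ2, ← hπ2,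
      sub_eq_zero] at h3
    rw [hy, hjw, mul_pow, div_pow, ← pow_mul, ← pow_mul]
    have h4 : π2 f ^ (2 * d) ≠ 0 := pow_ne_zero _ hf'
    rw [← mul_div_assoc, div_mul_eq_mul_div, div_eq_iff h4, h3, mul_comm]
  -- the conditions of KUM
  have c1 : ∀ ζ : AlgebraicClosure K, ζ ^ d = 1 → ∃ c : F, algebraMap F (AlgebraicClosure K) c = ζ := by
    intro ζ hζ
    obtain ⟨r, hr⟩ := root_of_unity_mem (((algebraMap K (AlgebraicClosure K)).comp π).comp
      (MvPolynomial.C : k →+* P4 k)) hd hζ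
    refine ⟨algebraMap (MvPolynomial (Fin 2) k) F (C r), ?_⟩
    rw [IsScalarTower.algebraMap_apply F K (AlgebraicClosure K), hjm, hj, hπ2, ← hr]
    have e : inc (C r : MvPolynomial (Fin 2) k) = (C r : P4 k) := by
      unfold inc
      rw [rename_C]
    rw [e]
    rfl
  have c2 : ∃ c : F, algebraMap F K c = y ^ d := by
    refine ⟨algebraMap _ F V / algebraMap _ F U, ?_⟩
    rw [hjm, map_div₀, hj, hj, div_eq_iff hU', hyd]
  have c3 : ∃ G : Polynomial F, G ≠ 0 ∧ G.natDegree ≤ 32 ∧ Polynomial.aeval y G = 0 := by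
    set G1 : Polynomial F := G.map (algebraMap _ F) with hG1
    have hG10 : G1 ≠ 0 := (Polynomial.map_ne_zero_iff hinjF).2 hG
    refine ⟨G1.comp (Polynomial.C w⁻¹ * Polynomial.X), ?_, ?_, ?_⟩
    · intro h
      have h3 : (G1.comp (Polynomial.C w⁻¹ * Polynomial.X)).comp (Polynomial.C w * Polynomial.X) =
          G1 := by
        rw [Polynomial.comp_assoc]
        have e : (Polynomial.C w⁻¹ * Polynomial.X).comp (Polynomial.C w * Polynomial.X) =
            (Polynomial.X : Polynomial F) := by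
          rw [Polynomial.mul_comp, Polynomial.C_comp, Polynomial.X_comp, ← mul_assoc,
            ← Polynomial.C_mul, inv_mul_cancel₀ hw0, Polynomial.C_1, one_mul]
        rw [e, Polynomial.comp_X]
      rw [h, Polynomial.zero_comp] at h3
      exact hG10 h3.symm
    · refine (Polynomial.natDegree_comp_le).trans ?_
      have h3 : (Polynomial.C w⁻¹ * Polynomial.X : Polynomial F).natDegree ≤ 1 :=
        (Polynomial.natDegree_C_mul_le _ _).trans Polynomial.natDegree_X_le
      have h4 : G1.natDegree ≤ 32 := (Polynomial.natDegree_map_le).trans hG32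
      calc _ ≤ 32 * 1 := Nat.mul_le_mul h4 h3
        _ = 32 := by norm_num
    · rw [Polynomial.aeval_comp]
      have e : Polynomial.aeval y (Polynomial.C w⁻¹ * Polynomial.X) = π (X 2) := by
        rw [map_mul, Polynomial.aeval_C, Polynomial.aeval_X, hjm, hy, map_inv₀, ← mul_assoc,
          mul_comm (j w)⁻¹, mul_assoc, inv_mul_cancel₀, mul_one]
        rw [hjw]
        exact div_ne_zero (pow_ne_zero _ hg') (pow_ne_zero _ hf')
      rw [e, hG1, Polynomial.aeval_def, Polynomial.eval₂_map]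
      have e2 : (algebraMap F K).comp (algebraMap (MvPolynomial (Fin 2) k) F) = π2 := by
        ext x
        · simp only [RingHom.comp_apply]
          exact hj _
        · simp only [RingHom.comp_apply]
          exact hj _
      rw [e2]
      have h3 := (hπ _).2 h2
      rw [Polynomial.hom_eval₂] at h3
      exact h3
  obtain ⟨d', hd', hd32, c, hc⟩ := kum y d 32 hd hy0 c1 c2 c3
  obtain ⟨A, B, hrel, hAB⟩ := IsFractionRing.exists_reduced_fraction (A := MvPolynomial (Fin 2) k) c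
  have hB0 : (B : MvPolynomial (Fin 2) k) ≠ 0 := nonZeroDivisors.coe_ne_zero B
  have hB' : π2 B ≠ 0 := fun h => hB0 (hinj (by rw [h, map_zero]))
  have hcB : j c * π2 B = π2 A := by
    have h3 : c * algebraMap _ F (B : MvPolynomial (Fin 2) k) = algebraMap _ F A := by
      rw [← hAB]
      exact IsLocalization.mk'_spec F A B
    have h4 := congrArg j h3
    rw [map_mul, hj, hj] at h4
    exact h4
  rw [hjm] at hc
  rw [hc] at hcB
  refine ⟨d', A, B, hd', hd32, ?_, ?_⟩
  · rw [← hπ, map_sub, map_mul, map_mul, map_mul, map_pow, map_pow, map_pow, ← hπ2, ← hπ2, ← hπ2,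
      ← hπ2, sub_eq_zero, ← hcB, hy, hjw, mul_pow, div_pow, ← pow_mul, ← pow_mul]
    have h4 : π2 f ^ (2 * d') ≠ 0 := pow_ne_zero _ hf'
    rw [← mul_div_assoc, div_mul_eq_mul_div, div_mul_cancel₀ _ h4]
    ring
  · intro p hp hBp
    have h5 : A ^ d * U ^ d' = (B : MvPolynomial (Fin 2) k) ^ d * V ^ d' := by
      apply hinj
      rw [map_mul, map_mul, map_pow, map_pow, map_pow, map_pow, ← hcB, ← hyd]
      ring
    have h6 : (B : MvPolynomial (Fin 2) k) ^ d ∣ A ^ d * U ^ d' := ⟨_, h5⟩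
    have h7 : IsRelPrime ((B : MvPolynomial (Fin 2) k) ^ d) (A ^ d) := hrel.symm.pow
    have h8 : (B : MvPolynomial (Fin 2) k) ^ d ∣ U ^ d' := h7.dvd_of_dvd_mul_left h6
    obtain ⟨W, hW⟩ := h8
    have h9 := congrArg (eval p) hW
    rw [map_mul, map_pow, map_pow, hBp, zero_pow hd.ne', zero_mul] at h9
    exact hp (pow_eq_zero_iff hd'.ne' |>.1 h9)

end Pool.Agent.PPZ.H33
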